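import Mathlib
import Pool.Agent.W56.FD

set_option autoImplicit false

namespace Pool.Agent.W587.NN

open Filter Topology MeasureTheory
open Pool.Agent.H305R2 (roughPart NN ff measurable_ff ff_nonneg ff_le_one integrableOn_ff bounds
  FF_sub)
open Pool.Agent.H447R2.ML
open Pool.Agent.W56

/-- the exact mean for one index -/
theorem mean_u {s t : ℝ} (hst : s < t) :
    Tendsto (fun m : ℕ => (volume.restrict (Set.Ioc s t)).real (Real.exp ⁻¹' EB m) *
      (2 ^ m / m)) atTop (𝓝 (Real.exp Real.eulerMascheroniConstant * (t - s))) := by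
  have hl2 : 0 < Real.log 2 := Real.log_pos one_lt_two
  have hmeas : ∀ m, MeasurableSet (Real.exp ⁻¹' EB m) := fun m =>
    Real.measurable_exp (measurableSet_EB m)
  have h1 := asymp_fl_any (g := fun _ => 1) (κ := 0) (C := 1) le_rfl one_pos (by intro p; simp)
    (a := Real.log 2 / 4) (l := t - s) (by positivity) (by linarith)
    (fun p : ℕ => s + p * (Real.log 2 / 4)) (by
      have h2 := (tendsto_const_div_atTop_nhds_zero_nat (𝕜 := ℝ) s).add_const (Real.log 2 / 4)
      rw [zero_add] at h2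
      refine h2.congr' ?_
      filter_upwards [eventually_ge_atTop 1] with p hp
      have hp0 : (0 : ℝ) < p := by exact_mod_cast hp
      field_simp)
  have h2 := (h1.comp (tendsto_p 2)).mul (ratio_one 2)
  have h3 := h2.mul_const (Real.log 2 / 4)
  have e : Real.exp Real.eulerMascheroniConstant * (t - s) / (Real.log 2 / 4) * 1 *
      (Real.log 2 / 4) = Real.exp Real.eulerMascheroniConstant * (t - s) := by field_simp
  rw [e] at h3
  refine h3.congr' ?_
  filter_upwards [eventually_ge_atTop 1] with m hm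
  have hm0 : (0 : ℝ) < m := by exact_mod_cast hm
  rw [real_eq (hmeas m) (EB_ind m)]
  rw [← intervalIntegral.integral_of_le hst.le,
    intervalIntegral.integral_comp_add_right (fun v => fl (fun _ => 1) (2 ^ (m + 2)) v),
    intervalIntegral.integral_of_le (by linarith)]
  simp only [Function.comp]
  have e1 : s + ((2 ^ (m + 2) : ℕ) : ℝ) * (Real.log 2 / 4) = s + (2 : ℝ) ^ m * Real.log 2 := by
    push_cast; ring
  have e2 : s + (2 : ℝ) ^ m * Real.log 2 + (t - s) = t + (2 : ℝ) ^ m * Real.log 2 := by ring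
  rw [e1, e2]
  push_cast
  rw [Real.log_pow]
  push_cast
  field_simp
  ring

/-- the index -/
def ix (k : ℕ) : ℕ := k + 2 ^ k

lemma ix_ge (k : ℕ) : k ≤ ix k := Nat.le_add_right _ _

lemma ix_step (k : ℕ) : ix k + k + 1 ≤ ix (k + 1) := by
  have h : k < 2 ^ k := Nat.lt_two_pow_self
  unfold ix
  rw [pow_succ]
  omega

lemma tendsto_ix : Tendsto ix atTop atTop := tendsto_atTop_mono ix_ge tendsto_id

lemma w_anti {m n : ℕ} (hm : 1 ≤ m) (hmn : m ≤ n) : (n : ℝ) / 2 ^ n ≤ (m : ℝ) / 2 ^ m := by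
  induction n, hmn using Nat.le_induction with
  | base => exact le_rfl
  | succ n hn ih =>
    refine le_trans ?_ ih
    have hn1 : (1 : ℝ) ≤ n := by exact_mod_cast hm.trans hn
    rw [div_le_div_iff₀ (by positivity) (by positivity)]
    push_cast
    rw [pow_succ]
    have : (0 : ℝ) < 2 ^ n := by positivity
    nlinarith

/-- tail of the weights over the indices `ix k` -/
theorem union_law_ix {Ω : Type*} [MeasurableSpace Ω] {μ : Measure Ω} [IsFiniteMeasure μ]
    {E : ℕ → Set Ω} (hE : ∀ m, MeasurableSet (E m)) {L : ℝ} (hL : 0 ≤ L)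
    (h1 : Tendsto (fun m : ℕ => μ.real (E m) * (2 ^ m / m)) atTop (𝓝 L)) :
    Tendsto (fun K : ℕ => μ.real (⋃ k ∈ Set.Ici K, E (ix k)) * (2 ^ (ix K) / ix K)) atTop
      (𝓝 L) := by
  have hlow : Tendsto (fun K : ℕ => μ.real (E (ix K)) * (2 ^ (ix K) / ix K)) atTop (𝓝 L) :=
    h1.comp tendsto_ix
  -- eventual upper bound for a single index
  have hhi := h1.eventually_lt_const (show L < L + 1 by linarith)
  obtain ⟨M0, hM0⟩ := eventually_atTop.1 (hhi.and (eventually_ge_atTop 1))
  -- the tail beyond `K`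
  have htail : ∀ᶠ K : ℕ in atTop, μ.real (⋃ k ∈ Set.Ici K, E (ix k)) * (2 ^ (ix K) / ix K) ≤
      μ.real (E (ix K)) * (2 ^ (ix K) / ix K) +
        (L + 1) * ((2 * ((ix (K + 1) : ℕ) : ℝ) + 2) / 2 ^ (ix (K + 1))) * (2 ^ (ix K) / ix K) := by
    filter_upwards [eventually_ge_atTop (max M0 1)] with K hK
    have hKM : M0 ≤ K := (le_max_left _ _).trans hK
    have hsub : (⋃ k ∈ Set.Ici K, E (ix k)) ⊆ E (ix K) ∪ ⋃ m ∈ Set.Ici (ix (K + 1)), E m := by
      intro x hx
      simp only [Set.mem_iUnion, Set.mem_Ici, exists_prop, Set.mem_union] at hx ⊢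
      obtain ⟨k, hk, hx⟩ := hx
      rcases eq_or_lt_of_le hk with h | h
      · left
        rw [h]
        exact hx
      · right
        have hmono : Monotone ix := monotone_nat_of_le_succ fun k => by
          have := ix_step k
          omega
        exact ⟨ix k, hmono (by omega), hx⟩
    have h2 : μ.real (⋃ m ∈ Set.Ici (ix (K + 1)), E m) ≤
        (L + 1) * ((2 * ((ix (K + 1) : ℕ) : ℝ) + 2) / 2 ^ (ix (K + 1))) := by
      refine tail_union_le (by linarith) fun m hm => ?_
      have hmM : M0 ≤ m := by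
        have := ix_ge (K + 1)
        omega
      obtain ⟨h4, hm1⟩ := hM0 m hmM
      have hm1' : (1 : ℝ) ≤ m := by exact_mod_cast hm1
      have e : μ.real (E m) = μ.real (E m) * (2 ^ m / m) * (m / 2 ^ m) := by field_simp
      rw [e]
      exact mul_le_mul_of_nonneg_right h4.le (by positivity)
    have h3 : μ.real (⋃ k ∈ Set.Ici K, E (ix k)) ≤ μ.real (E (ix K)) +
        (L + 1) * ((2 * ((ix (K + 1) : ℕ) : ℝ) + 2) / 2 ^ (ix (K + 1))) :=
      (measureReal_mono hsub (measure_ne_top μ _)).trans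
        ((measureReal_union_le _ _).trans (by linarith))
    calc _ ≤ (μ.real (E (ix K)) +
        (L + 1) * ((2 * ((ix (K + 1) : ℕ) : ℝ) + 2) / 2 ^ (ix (K + 1)))) * (2 ^ (ix K) / ix K) :=
          mul_le_mul_of_nonneg_right h3 (by positivity)
      _ = _ := by ring
  have hzero : Tendsto (fun K : ℕ =>
      (L + 1) * ((2 * ((ix (K + 1) : ℕ) : ℝ) + 2) / 2 ^ (ix (K + 1))) * (2 ^ (ix K) / ix K))
      atTop (𝓝 0) := by
    have hup : Tendsto (fun K : ℕ => (L + 1) * (16 * (1 / 2 : ℝ) ^ K)) atTop (𝓝 0) := by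
      have h := (tendsto_pow_atTop_nhds_zero_of_lt_one (r := (1 / 2 : ℝ)) (by norm_num)
        (by norm_num)).const_mul 16
      have h' := h.const_mul (L + 1)
      simpa using h'
    refine squeeze_zero' (Eventually.of_forall fun K => by positivity) ?_ hup
    filter_upwards [eventually_ge_atTop 1] with K hK
    rw [mul_assoc]
    refine mul_le_mul_of_nonneg_left ?_ (by linarith)
    have hs := ix_step K
    have hle : ix (K + 1) ≤ 4 * ix K := by
      unfold ix
      rw [pow_succ]
      omega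
    have hpos : 1 ≤ ix K := hK.trans (ix_ge K)
    have hposR : (1 : ℝ) ≤ ix K := by exact_mod_cast hpos
    have hleR : ((ix (K + 1) : ℕ) : ℝ) ≤ 4 * ix K := by exact_mod_cast hle
    have hpw : (2 : ℝ) ^ (ix K) * 2 ^ K ≤ 2 ^ (ix (K + 1)) := by
      rw [← pow_add]
      exact pow_le_pow_right₀ (by norm_num) (by omega)
    have e5 : (2 * ((ix (K + 1) : ℕ) : ℝ) + 2) / 2 ^ (ix (K + 1)) * (2 ^ (ix K) / ix K) =
        (2 * ((ix (K + 1) : ℕ) : ℝ) + 2) / ix K * (2 ^ (ix K) / 2 ^ (ix (K + 1))) := by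
      field_simp
    rw [e5]
    have h6 : (2 * ((ix (K + 1) : ℕ) : ℝ) + 2) / ix K ≤ 16 := by
      rw [div_le_iff₀ (by linarith)]
      nlinarith
    have h7 : (2 : ℝ) ^ (ix K) / 2 ^ (ix (K + 1)) ≤ (1 / 2) ^ K := by
      rw [div_le_iff₀ (by positivity), one_div, inv_pow, ← div_eq_inv_mul,
        le_div_iff₀ (by positivity)]
      exact hpw
    have h8 : (0 : ℝ) ≤ 2 ^ (ix K) / 2 ^ (ix (K + 1)) := by positivity
    calc _ ≤ 16 * (2 ^ (ix K) / 2 ^ (ix (K + 1))) := mul_le_mul_of_nonneg_right h6 h8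
      _ ≤ _ := mul_le_mul_of_nonneg_left h7 (by norm_num)
  have hup := hlow.add hzero
  rw [add_zero] at hup
  refine tendsto_of_tendsto_of_tendsto_of_le_of_le' hlow hup ?_ htail
  refine Eventually.of_forall fun K => ?_
  refine mul_le_mul_of_nonneg_right (measureReal_mono ?_ (measure_ne_top μ _)) (by positivity)
  intro x hx
  exact Set.mem_biUnion (show K ∈ Set.Ici K from Set.mem_Ici.2 le_rfl) hx

/-- the law for multipliers, indices `k + 2 ^ k` -/
theorem law_nn {a b : ℝ} (ha : 0 < a) (hab : a < b) :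
    Tendsto (fun K : ℕ => (volume {β : ℝ | β ∈ Set.Ioc a b ∧ ∃ k, K ≤ k ∧
      (roughPart (2 ^ (ix k + 2)) (⌊β * 2 ^ (2 ^ (ix k))⌋₊ + 1)).Prime}).toReal *
        (2 ^ (ix K) / ix K)) atTop
      (𝓝 (Real.exp Real.eulerMascheroniConstant * (b - a))) := by
  have hb : 0 < b := ha.trans hab
  have hst : Real.log a < Real.log b := Real.log_lt_log ha hab
  have hE : ∀ k, MeasurableSet (EB (ix k)) := fun k => measurableSet_EB _
  have hU : ∀ M : ℕ, MeasurableSet (⋃ m ∈ Set.Ici M, EB (ix m)) := fun M =>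
    MeasurableSet.biUnion (Set.to_countable _) fun n _ => hE n
  have hpre : ∀ M : ℕ, (⋃ m ∈ Set.Ici M, Real.exp ⁻¹' EB (ix m)) =
      Real.exp ⁻¹' (⋃ m ∈ Set.Ici M, EB (ix m)) := fun M => by
    simp only [Set.preimage_iUnion]
  have h1 := weight_law (S := fun M => ⋃ m ∈ Set.Ici M, Real.exp ⁻¹' EB (ix m))
    (fun M => by rw [hpre]; exact Real.measurable_exp (hU M))
    (r := fun M : ℕ => (2 : ℝ) ^ (ix M) / ix M) (fun M => by positivity) hst
    (φ := fun _ => Real.exp Real.eulerMascheroniConstant) continuousOn_const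
    (fun _ _ => by positivity) (fun x y _ hxy _ => by
      have h2 := union_law_ix (μ := volume.restrict (Set.Ioc x y))
        (E := fun m => Real.exp ⁻¹' EB m)
        (fun m => Real.measurable_exp (measurableSet_EB m))
        (L := Real.exp Real.eulerMascheroniConstant * (y - x))
        (by have : 0 < y - x := by linarith
            positivity) (mean_u hxy)
      rw [intervalIntegral.integral_const, smul_eq_mul, mul_comm]
      exact h2)
  have e : ∫ u in (Real.log a)..(Real.log b), Real.exp u * Real.exp Real.eulerMascheroniConstant =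
      Real.exp Real.eulerMascheroniConstant * (b - a) := by
    rw [intervalIntegral.integral_mul_const, integral_exp, Real.exp_log ha, Real.exp_log hb]
    ring
  rw [e] at h1
  refine h1.congr fun M => ?_
  congr 1
  rw [hpre, ← vol_exp (hU M) hst.le, Measure.real, Measure.restrict_apply (hU M)]
  congr 2
  rw [Real.exp_log ha, Real.exp_log hb]
  ext x
  simp only [Set.mem_inter_iff, Set.mem_iUnion, Set.mem_Ici, exists_prop, Set.mem_ofPred_eq, EB]
  tauto

end Pool.Agent.W587.NN
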